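import Mathlib
import Pool.Agent.H.MP_a9d09b_co.Bias

namespace Pool.Agent.Results.MP_a9d09b_co.AnalyticRank

open Finset

/-- the multilinear form of a tensor -/
def form {F ι : Type} [Field F] [Fintype ι] {d : ℕ} (A : (Fin d → ι) → F)
    (X : Fin d → ι → F) : F :=
  ∑ x : Fin d → ι, A x * ∏ i, X i (x i)

/-- bias of the form of a tensor over the field with `p` elements -/
noncomputable def bias {p : ℕ} [Fact p.Prime] {ι : Type} [Fintype ι] [DecidableEq ι] {d : ℕ}
    (A : (Fin d → ι) → ZMod p) : ℝ :=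
  ((∑ X : Fin d → ι → ZMod p, Complex.exp (2 * Real.pi * Complex.I / p) ^ (form A X).val) /
    (Fintype.card (Fin d → ι → ZMod p) : ℂ)).re

/-- analytic rank -/
noncomputable def arank {p : ℕ} [Fact p.Prime] {ι : Type} [Fintype ι] [DecidableEq ι] {d : ℕ}
    (A : (Fin d → ι) → ZMod p) : ℝ := - Real.logb p (bias A)

/-- identity tensor -/
def idT (F ι : Type) [Field F] [Fintype ι] [DecidableEq ι] (d : ℕ) : (Fin d → ι) → F :=
  fun x => if ∀ i i', x i = x i' then 1 else 0

/-- tensor power -/
def tpow {F ι : Type} [Field F] {d : ℕ} (A : (Fin d → ι) → F) (m : ℕ) :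
    (Fin d → (Fin m → ι)) → F :=
  fun x => ∏ k, A (fun i => x i k)

open Pool.Agent.H.MP_a9d09b_co

lemma bias_eq {p : ℕ} [hp : Fact p.Prime] {ι : Type} [Fintype ι] [DecidableEq ι]
    (A : (Fin 4 → ι) → ZMod p) :
    bias A = (SS A).re / ((p ^ 4 : ℕ) : ℝ) ^ Fintype.card ι := by
  unfold bias SS
  have h1 : ∀ j : ZMod p, Complex.exp (2 * Real.pi * Complex.I / p) ^ j.val =
      ZMod.stdAddChar j := by
    intro j
    rw [← Complex.exp_nat_mul]
    conv_rhs => rw [← ZMod.natCast_zmod_val j, ← Int.cast_natCast, ZMod.stdAddChar_coe]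
    congr 1
    push_cast
    ring
  simp only [h1]
  rw [Complex.div_natCast_re]
  congr 1
  simp only [Fintype.card_pi, ZMod.card, prod_const, card_univ, Fintype.card_fin]
  push_cast
  ring

lemma bias_id {p : ℕ} [hp : Fact p.Prime] {ι : Type} [Fintype ι] [DecidableEq ι]
    (A : (Fin 4 → ι) → ZMod p) (h1 : ∀ y : Fin 4 → ι, A y = if ∀ i, y i = y 0 then 1 else 0) :
    bias A = (((p * n0 p : ℕ) : ℝ) / ((p ^ 4 : ℕ) : ℝ)) ^ Fintype.card ι := by
  rw [bias_eq, SS_id A h1, div_pow]

theorem result (p : ℕ) [hp : Fact p.Prime] :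
    ∃ (n : ℕ) (A : (Fin 4 → Fin n) → ZMod p), arank A < arank (idT (ZMod p) (Fin n) 4) ∧
      ∀ c : ℝ, c < 1 → ∃ m : ℕ, 1 ≤ m ∧
        c ^ m * arank (tpow (idT (ZMod p) (Fin n) 4) m) ≤ arank (tpow A m) := by
  classical
  set β : ℝ := ((p * n0 p : ℕ) : ℝ) / ((p ^ 4 : ℕ) : ℝ) with hβ
  have hp1 : (1 : ℝ) < p := by exact_mod_cast hp.out.one_lt
  have hq : (0 : ℝ) < ((p ^ 4 : ℕ) : ℝ) := by push_cast; positivity
  have hβ0 : 0 < β := div_pos (by exact_mod_cast Nat.mul_pos hp.out.pos n0_pos) hq
  have hβ1 : β < 1 := by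
    rw [hβ, div_lt_one hq]
    have := Nat.mul_lt_mul_of_pos_left (n0_lt (p := p)) hp.out.pos
    exact_mod_cast (by rw [show p ^ 4 = p * p ^ 3 by ring]; exact this : p * n0 p < p ^ 4)
  obtain ⟨a0, ha0⟩ := exists_pow_lt_of_lt_one (show (0 : ℝ) < 1 / p ^ 2 by positivity) hβ1
  set a := a0 + 2 with ha
  let e : Fin (2 * a) ≃ Bool × Fin a := Fintype.equivOfCardEq (by simp)
  have hlog : Real.logb p β ≤ 0 := Real.logb_nonpos hp1 hβ0.le hβ1.le
  have hid : ∀ m, arank (tpow (idT (ZMod p) (Fin (2 * a)) 4) m) =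
      (2 * a) ^ m * (- Real.logb p β) := by
    intro m
    rw [arank, bias_id, ← hβ, Real.logb_pow]
    · simp
    · intro y
      simp only [tpow, idT]
      rw [Finset.prod_ite_zero]
      simp only [mem_univ, true_implies, prod_const_one]
      congr 1
      exact propext ⟨fun h i => funext fun k => h k i 0,
        fun h k i i' => congrFun ((h i).trans (h i').symm) k⟩
  have hlow : ∀ (m : ℕ) (B : (Fin 4 → Fin m → Fin (2 * a)) → ZMod p) (κ : Type) [Fintype κ]
      (φ : Fin 4 → κ → Fin m → Fin (2 * a)), (∀ i, Function.Injective (φ i)) →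
      (∀ y : Fin 4 → κ, B (fun i => φ i (y i)) = if ∀ i, y i = y 0 then 1 else 0) →
      (Fintype.card κ : ℝ) * (- Real.logb p β) ≤ arank B := by
    intro m B κ _ φ h1 h2
    have h3 := SS_le B φ h1 h2
    have h4 := Fintype.card_le_of_injective _ (h1 0)
    have h5 : bias B ≤ β ^ Fintype.card κ := by
      rw [bias_eq, div_le_iff₀ (by positivity)]
      refine h3.trans (le_of_eq ?_)
      obtain ⟨r, hr⟩ := Nat.exists_eq_add_of_le h4
      rw [hr, Nat.add_sub_cancel_left, pow_add, hβ, div_pow]
      field_simp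
    have h6 : 0 < bias B := by
      rw [bias_eq]; exact div_pos (SS_pos B) (by positivity)
    have h7 := Real.logb_le_logb_of_le hp1 h6 h5
    rw [Real.logb_pow] at h7
    rw [arank]
    linarith
  refine ⟨2 * a, fun x => if Sup (fun i => e (x i)) then 1 else 0, ?_, ?_⟩
  · have h1 : bias (idT (ZMod p) (Fin (2 * a)) 4) = β ^ (2 * a) := by
      rw [bias_id, Fintype.card_fin]
      intro y
      unfold idT
      congr 1
      exact propext ⟨fun h i => h i 0, fun h i i' => (h i).trans (h i').symm⟩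
    have h2 : 1 / (p : ℝ) ^ 2 ≤ bias (fun x : Fin 4 → Fin (2 * a) =>
        if Sup (fun i => e (x i)) then (1 : ZMod p) else 0) := by
      have h3 := SS_ge (fun x : Fin 4 → Fin (2 * a) =>
        if Sup (fun i => e (x i)) then (1 : ZMod p) else 0)
        (fun X => ∑ z : Fin a, X 0 (e.symm (false, z)) * X 1 (e.symm (false, z)))
        (fun X => ∑ z : Fin a, X 0 (e.symm (true, z)) * X 2 (e.symm (true, z)))
        (fun X u => if (e u).1 = false then X 2 u else 0)
        (fun X u => if (e u).1 = true then X 1 u else 0) ?_ ?_ ?_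
      · rw [bias_eq, div_le_div_iff₀ (by positivity) (by positivity), one_mul]
        refine le_trans (le_of_eq ?_) h3
        simp only [Fintype.card_pi, ZMod.card, prod_const, card_univ, Fintype.card_fin]
        push_cast
        ring
      · intro X
        unfold fm
        rw [← (Equiv.piCongrRight (fun _ : Fin 4 => e.symm)).sum_comp, ← e.symm.sum_comp,
          ← e.symm.sum_comp, Fintype.sum_prod_type, Fintype.sum_prod_type]
        have := form_sup (fun i z => X i (e.symm z))
        simpa using this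
      · intro X Y
        constructor <;> funext u <;> rw [Function.update_of_ne (by decide)]
      · intro X Y
        constructor <;> funext u <;> rw [Function.update_of_ne (by decide)]
    have h4 : β ^ (2 * a) < 1 / (p : ℝ) ^ 2 :=
      lt_of_le_of_lt (pow_le_pow_of_le_one hβ0.le hβ1.le (by omega)) ha0
    rw [arank, arank, h1, neg_lt_neg_iff]
    exact Real.logb_lt_logb hp1 (by positivity) (h4.trans_le h2)
  · intro c hc
    rcases le_or_gt c 0 with h0 | h0
    · refine ⟨1, le_rfl, ?_⟩
      rw [hid, pow_one]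
      refine le_trans (mul_nonpos_of_nonpos_of_nonneg h0
        (mul_nonneg (by positivity) (by linarith))) ?_
      have := hlow 1 (tpow (fun x : Fin 4 → Fin (2 * a) =>
        if Sup (fun i => e (x i)) then (1 : ZMod p) else 0) 1) Empty (fun _ z => z.elim)
        (fun _ z => z.elim) (fun y => (y 0).elim)
      simpa using this
    obtain ⟨m, κ, iκ, φ, hm, h1, h2⟩ := core a (by omega) c h0 hc
    refine ⟨m, hm, ?_⟩
    have h3 := hlow m (tpow (fun x : Fin 4 → Fin (2 * a) =>
      if Sup (fun i => e (x i)) then (1 : ZMod p) else 0) m) κ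
      (fun i z j => e.symm (φ i z j))
      (fun i z z' h => inj_of_diag Sup φ h1 i (funext fun j => e.symm.injective (congrFun h j)))
      (fun y => by
        simp only [tpow, Equiv.apply_symm_apply]
        rw [Finset.prod_ite_zero]
        simp [h1 y])
    rw [hid, ← mul_assoc]
    exact le_trans (mul_le_mul_of_nonneg_right h2 (by linarith)) h3

end Pool.Agent.Results.MP_a9d09b_co.AnalyticRank
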