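import Mathlib
import Pool.Agent.H.MP_a9d09b_co.Form
import Pool.Agent.H.MP_a9d09b_co.Naslund

namespace Pool.Agent.Results.MP_a9d09b_co.PartitionRank

open Finset

/-- the multilinear form of a tensor -/
def form {F ι : Type} [Field F] [Fintype ι] {d : ℕ} (A : (Fin d → ι) → F)
    (X : Fin d → ι → F) : F :=
  ∑ x : Fin d → ι, A x * ∏ i, X i (x i)

/-- partition rank -/
noncomputable def prank {F ι : Type} [Field F] [Fintype ι] {d : ℕ} (A : (Fin d → ι) → F) : ℕ :=
  sInf {r : ℕ | ∃ (S : Fin r → Finset (Fin d)) (g h : Fin r → (Fin d → ι → F) → F),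
    (∀ j, (S j).Nonempty ∧ S j ≠ Finset.univ) ∧
    (∀ j X Y, (∀ i ∈ S j, X i = Y i) → g j X = g j Y) ∧
    (∀ j X Y, (∀ i ∉ S j, X i = Y i) → h j X = h j Y) ∧
    ∀ X, form A X = ∑ j, g j X * h j X}

/-- identity tensor -/
def idT (F ι : Type) [Field F] [Fintype ι] [DecidableEq ι] (d : ℕ) : (Fin d → ι) → F :=
  fun x => if ∀ i i', x i = x i' then 1 else 0

/-- tensor power -/
def tpow {F ι : Type} [Field F] {d : ℕ} (A : (Fin d → ι) → F) (m : ℕ) :
    (Fin d → (Fin m → ι)) → F :=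
  fun x => ∏ k, A (fun i => x i k)

lemma form_single {F ι : Type} [Field F] [Fintype ι] [DecidableEq ι] {d : ℕ}
    (A : (Fin d → ι) → F) (x : Fin d → ι) : form A (fun i => Pi.single (x i) 1) = A x := by
  unfold form
  rw [Finset.sum_eq_single x]
  · simp
  · intro y _ hy
    obtain ⟨i, hi⟩ := Function.ne_iff.1 hy
    rw [Finset.prod_eq_zero (mem_univ i), mul_zero]
    simp [hi]
  · simp

lemma slice {F ι : Type} [Field F] [Fintype ι] (A : (Fin 4 → ι) → F) :
    Fintype.card ι ∈ {r : ℕ | ∃ (S : Fin r → Finset (Fin 4))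
      (g h : Fin r → (Fin 4 → ι → F) → F),
    (∀ j, (S j).Nonempty ∧ S j ≠ Finset.univ) ∧
    (∀ j X Y, (∀ i ∈ S j, X i = Y i) → g j X = g j Y) ∧
    (∀ j X Y, (∀ i ∉ S j, X i = Y i) → h j X = h j Y) ∧
    ∀ X, form A X = ∑ j, g j X * h j X} := by
  classical
  let e := (Fintype.equivFin ι).symm
  refine ⟨fun _ => {0}, fun j X => X 0 (e j),
    fun j X => ∑ y : Fin 3 → ι, A (Fin.cons (e j) y) * ∏ i, X i.succ (y i), ?_, ?_, ?_, ?_⟩
  · intro j; exact ⟨by simp, (by decide : ({0} : Finset (Fin 4)) ≠ univ)⟩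
  · intro j X Y h
    show X 0 (e j) = Y 0 (e j)
    rw [h 0 (by simp)]
  · intro j X Y h
    apply Finset.sum_congr rfl
    intro y _
    congr 1
    apply Finset.prod_congr rfl
    intro i _
    rw [h i.succ (by simp [Fin.succ_ne_zero])]
  · intro X
    rw [e.sum_comp (fun z => X 0 z * ∑ y : Fin 3 → ι, A (Fin.cons z y) * ∏ i, X i.succ (y i))]
    unfold form
    rw [← (Fin.consEquiv (fun _ : Fin 4 => ι)).sum_comp, Fintype.sum_prod_type]
    apply Finset.sum_congr rfl
    intro z _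
    rw [Finset.mul_sum]
    apply Finset.sum_congr rfl
    intro y _
    rw [Fin.prod_univ_succ]
    show A (Fin.cons z y) * (X 0 z * ∏ i, X (Fin.succ i) (y i)) = _
    ring

lemma prank_le {F ι : Type} [Field F] [Fintype ι] (A : (Fin 4 → ι) → F) :
    prank A ≤ Fintype.card ι := Nat.sInf_le (slice A)

lemma le_prank {F ι κ : Type} [Field F] [Fintype ι] [Fintype κ] [DecidableEq κ]
    (A : (Fin 4 → ι) → F) (φ : Fin 4 → κ → ι)
    (hA : ∀ y : Fin 4 → κ, A (fun i => φ i (y i)) = if ∀ i, y i = y 0 then 1 else 0) :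
    Fintype.card κ ≤ prank A := by
  classical
  obtain ⟨S, g, h, h1, h2, h3, h4⟩ := Nat.sInf_mem ⟨_, slice A⟩
  have := Pool.Agent.H.MP_a9d09b_co.naslund (F := F) (κ := κ) 3 (fun _ => 1) univ S
    (fun j y => g j (fun i => Pi.single (φ i (y i)) 1))
    (fun j y => h j (fun i => Pi.single (φ i (y i)) 1)) (fun j _ => h1 j)
    (fun j _ x y hxy => h2 j _ _ (fun i hi => by rw [hxy i hi]))
    (fun j _ x y hxy => h3 j _ _ (fun i hi => by rw [hxy i hi]))
    (fun y => by rw [← h4, form_single, hA])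
  simpa [prank] using this

theorem result (F : Type) [Field F] :
    ∃ (n : ℕ) (A : (Fin 4 → Fin n) → F), prank A < prank (idT F (Fin n) 4) ∧
      ∀ c : ℝ, c < 1 → ∃ m : ℕ, 1 ≤ m ∧
        c ^ m * (prank (tpow (idT F (Fin n) 4) m) : ℝ) ≤ (prank (tpow A m) : ℝ) := by
  classical
  let e : Fin 4 ≃ Bool × Fin 2 := Fintype.equivOfCardEq (by simp)
  refine ⟨4, fun x => if Pool.Agent.H.MP_a9d09b_co.Sup (fun i => e (x i)) then 1 else 0, ?_, ?_⟩
  · have h1 : Fintype.card (Fin 4) ≤ prank (idT F (Fin 4) 4) := by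
      apply le_prank _ (fun _ z => z)
      intro y
      unfold idT
      congr 1
      exact propext ⟨fun h i => h i 0, fun h i i' => (h i).trans (h i').symm⟩
    refine lt_of_le_of_lt (Nat.sInf_le (m := 2) ?_) (lt_of_lt_of_le (by simp) h1)
    refine ⟨![{0, 1}, {0, 2}],
      ![fun X => ∑ z : Fin 2, X 0 (e.symm (false, z)) * X 1 (e.symm (false, z)),
        fun X => ∑ z : Fin 2, X 0 (e.symm (true, z)) * X 2 (e.symm (true, z))],
      ![fun X => ∑ z : Fin 2, X 2 (e.symm (false, z)) * X 3 (e.symm (false, z)),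
        fun X => ∑ z : Fin 2, X 1 (e.symm (true, z)) * X 3 (e.symm (true, z))], ?_, ?_, ?_, ?_⟩
    · intro j; fin_cases j <;> exact ⟨by simp, by decide⟩
    · intro j X Y h
      fin_cases j
      · simp [h 0 (by simp), h 1 (by simp)]
      · simp [h 0 (by simp), h 2 (by simp)]
    · intro j X Y h
      fin_cases j
      · simp [h 2 (by simp), h 3 (by simp)]
      · simp [h 1 (by simp), h 3 (by simp)]
    · intro X
      unfold form
      rw [← (Equiv.piCongrRight (fun _ : Fin 4 => e.symm)).sum_comp, Fin.sum_univ_two]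
      have := Pool.Agent.H.MP_a9d09b_co.form_sup (fun i z => X i (e.symm z))
      simpa using this
  · intro c hc
    rcases le_or_gt c 0 with h0 | h0
    · refine ⟨1, le_rfl, le_trans ?_ (Nat.cast_nonneg _)⟩
      rw [pow_one]
      exact mul_nonpos_of_nonpos_of_nonneg h0 (Nat.cast_nonneg _)
    obtain ⟨m, κ, iκ, φ, hm, h1, h2⟩ := Pool.Agent.H.MP_a9d09b_co.core 2 le_rfl c h0 hc
    refine ⟨m, hm, ?_⟩
    have h3 := prank_le (tpow (idT F (Fin 4) 4) m)
    have h4 := le_prank (tpow (fun x : Fin 4 → Fin 4 =>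
      if Pool.Agent.H.MP_a9d09b_co.Sup (fun i => e (x i)) then (1 : F) else 0) m)
      (fun i z j => e.symm (φ i z j)) (fun y => by
        simp only [tpow, Equiv.apply_symm_apply]
        rw [Finset.prod_ite_zero]
        simp [h1 y])
    have h5 : (prank (tpow (idT F (Fin 4) 4) m) : ℝ) ≤ (2 * (2 : ℕ)) ^ m := by
      simp only [Fintype.card_pi, Fintype.card_fin, prod_const, card_univ] at h3
      exact_mod_cast h3
    have h6 : (Fintype.card κ : ℝ) ≤ _ := Nat.cast_le.2 h4
    exact le_trans (le_trans (mul_le_mul_of_nonneg_left h5 (by positivity)) h2) h6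

end Pool.Agent.Results.MP_a9d09b_co.PartitionRank
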